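import Pool.Agent.Y262.QE.Stm

/-! Project QE (helper262), job PACK: the surface satisfies the hypotheses of the abstract
theorem. -/

set_option autoImplicit false

open Set Filter Topology MeasureTheory
open scoped Real ContDiff ComplexConjugate

noncomputable section

namespace Pool.Agent.Y291.QE

open Pool.Agent.Y262.QE

/-! ### integration over the rectangle -/

lemma rec_eq (L : ℝ) : Rec L (-π) = Complex.measurableEquivRealProd ⁻¹' (Ioo 0 L ×ˢ Ioo (-π) π) := by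
  ext z
  simp only [Rec, mem_ofPred_eq, mem_preimage, mem_prod, mem_Ioo,
    Complex.measurableEquivRealProd_apply]
  constructor
  · rintro ⟨h1, h2, h3⟩
    exact ⟨h1, h2, by linarith⟩
  · rintro ⟨h1, h2, h3⟩
    exact ⟨h1, h2, by linarith⟩

lemma rec_meas (L : ℝ) : MeasurableSet (Rec L (-π)) := by
  rw [rec_eq]
  exact Complex.measurableEquivRealProd.measurable (measurableSet_Ioo.prod measurableSet_Ioo)

lemma rec_sub (L : ℝ) : Rec L (-π) ⊆ Strip L := fun _ hz => hz.1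

/-- Fubini for products -/
lemma rec_mul (L : ℝ) (f g : ℝ → ℝ) :
    ∫ z in Rec L (-π), f z.re * g z.im =
      (∫ x in Ioo 0 L, f x) * ∫ y in Ioo (-π) π, g y := by
  have h1 := Complex.volume_preserving_equiv_real_prod
  have h2 := h1.setIntegral_preimage_emb Complex.measurableEquivRealProd.measurableEmbedding
    (fun q : ℝ × ℝ => f q.1 * g q.2) (Ioo 0 L ×ˢ Ioo (-π) π)
  rw [rec_eq, Measure.volume_eq_prod] at *
  rw [setIntegral_prod_mul] at h2
  rw [← h2]
  rfl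

lemma int_cos (k : ℤ) (hk : k ≠ 0) : ∫ y in Ioo (-π) π, Real.cos (k * y) = 0 := by
  rw [← integral_Ioc_eq_integral_Ioo, ← intervalIntegral.integral_of_le (by linarith [Real.pi_pos])]
  have hk' : (k : ℝ) ≠ 0 := by exact_mod_cast hk
  rw [intervalIntegral.integral_comp_mul_left (fun y => Real.cos y) hk', integral_cos]
  have e1 : Real.sin (k * π) = 0 := Real.sin_int_mul_pi k
  have e2 : Real.sin (k * -π) = 0 := by rw [mul_neg, Real.sin_neg, e1, neg_zero]
  rw [e1, e2]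
  simp

lemma int_one : ∫ _y in Ioo (-π) π, (1 : ℝ) = 2 * π := by
  rw [← integral_Ioc_eq_integral_Ioo, ← intervalIntegral.integral_of_le (by linarith [Real.pi_pos])]
  rw [intervalIntegral.integral_const]
  simp
  ring

lemma cos_int (c : ℝ) : IntegrableOn (fun y => Real.cos (c * y)) (Ioo (-π) π) := by
  have h : Continuous fun y => Real.cos (c * y) := by fun_prop
  exact (h.integrableOn_Icc (a := -π) (b := π)).mono_set Ioo_subset_Icc_self

lemma int_sin (m m' : ℕ) : ∫ y in Ioo (-π) π, Real.sin ((m + 1) * y) * Real.sin ((m' + 1) * y) =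
    if m = m' then π else 0 := by
  have e : ∀ y : ℝ, Real.sin ((m + 1) * y) * Real.sin ((m' + 1) * y) =
      (Real.cos (((m : ℤ) - m' : ℤ) * y) - Real.cos (((m : ℤ) + m' + 2 : ℤ) * y)) / 2 := by
    intro y
    push_cast
    have e1 : ((m : ℝ) - m') * y = (m + 1) * y - (m' + 1) * y := by ring
    have e2 : ((m : ℝ) + m' + 2) * y = (m + 1) * y + (m' + 1) * y := by ring
    rw [e1, e2, Real.cos_sub, Real.cos_add]
    ring
  simp only [e]
  rw [integral_div, integral_sub (cos_int _) (cos_int _)]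
  rw [int_cos ((m : ℤ) + m' + 2) (by omega)]
  by_cases hm : m = m'
  · subst hm
    simp only [sub_self, Int.cast_zero, zero_mul, Real.cos_zero, if_true]
    rw [int_one]
    ring
  · rw [int_cos ((m : ℤ) - m') (by omega), if_neg hm]
    simp

/-! ### the forms on the Hilbert space -/

section forms

variable {M : Type} [MetricSpace M] [MeasurableSpace M]
  (D : Data M) (μ : Measure M) (σ : M → M)

/-- the inclusion in `L²` -/
def ii : HS D μ σ →L[ℝ] Lp ℝ 2 μ :=
  (WithLp.fstL 2 ℝ (Lp ℝ 2 μ) (Lp ℂ 2 μ)).comp (HS D μ σ).subtypeL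

/-- the gradient -/
def gg : HS D μ σ →L[ℝ] Lp ℂ 2 μ :=
  (WithLp.sndL 2 ℝ (Lp ℝ 2 μ) (Lp ℂ 2 μ)).comp (HS D μ σ).subtypeL

/-- the Dirichlet form -/
def aa : HS D μ σ →L[ℝ] HS D μ σ →L[ℝ] ℝ :=
  (innerSL ℝ (E := Lp ℂ 2 μ)).bilinearComp (gg D μ σ) (gg D μ σ)

lemma ii_apply (v : HS D μ σ) : ii D μ σ v = v.1.fst := rfl

lemma gg_apply (v : HS D μ σ) : gg D μ σ v = v.1.snd := rfl

lemma aa_apply (u v : HS D μ σ) : aa D μ σ u v = inner ℝ u.1.snd v.1.snd := rfl

lemma nrm (v : HS D μ σ) : ‖v‖ ^ 2 = aa D μ σ v v + ‖ii D μ σ v‖ ^ 2 := by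
  have h := WithLp.prod_norm_sq_eq_of_L2 v.1
  have h1 : ‖v‖ = ‖v.1‖ := rfl
  rw [h1, h, aa_apply, ii_apply, real_inner_self_eq_norm_sq]
  ring

lemma dens [CompactSpace M] [BorelSpace M] (hDen : StDen) {D : Data M} {μ : Measure M}
    (hD : D.IsSurf μ) {L : ℝ} {Φ : ℂ → M} {σ : M → M} (hC : D.IsCyl μ L Φ σ)
    {P : HS D μ σ → Prop} (hc : IsClosed {v | P v})
    (h : ∀ (v : HS D μ σ) (F : M → ℝ), D.C1 F → (∀ x, F (σ x) = - F x) →
      (v.1.fst : M → ℝ) =ᵐ[μ] F → (v.1.snd : M → ℂ) =ᵐ[μ] D.gr F → P v) : ∀ v, P v := by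
  intro v
  obtain ⟨-, F, f, hf, hlim⟩ := (hDen M μ D hD L Φ σ hC).2 v.1 v.2
  have h1 : Tendsto (fun k => (⟨f k, (hf k).2.2.1⟩ : HS D μ σ)) atTop (𝓝 v) := by
    rw [tendsto_subtype_rng]
    exact hlim
  exact hc.mem_of_tendsto h1 (Eventually.of_forall fun k =>
    h _ (F k) (hf k).1 (hf k).2.1 (hf k).2.2.2.1 (hf k).2.2.2.2)

omit [MetricSpace M] in
lemma inn (μ : Measure M) (u v : Lp ℝ 2 μ) : inner ℝ u v = ∫ x, u x * v x ∂μ := by
  rw [L2.inner_def]
  refine integral_congr_ae (Eventually.of_forall fun x => ?_)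
  simp [mul_comm]

omit [MetricSpace M] in
lemma nsq (μ : Measure M) (u : Lp ℝ 2 μ) : ‖u‖ ^ 2 = ∫ x, (u x) ^ 2 ∂μ := by
  rw [← real_inner_self_eq_norm_sq, inn]
  refine integral_congr_ae (Eventually.of_forall fun x => ?_)
  simp only
  ring

omit [MetricSpace M] in
lemma innC (μ : Measure M) (u v : Lp ℂ 2 μ) : inner ℝ u v = ∫ x, inner ℝ (u x) (v x) ∂μ := by
  rw [L2.inner_def]

end forms

/-! ### transfer to the rectangle -/

set_option linter.unusedSectionVars false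

section transfer

variable {M : Type} [MetricSpace M] [CompactSpace M] [MeasurableSpace M] [BorelSpace M]
  {μ : Measure M} {D : Data M} {L : ℝ} {Φ : ℂ → M} {σ : M → M}

lemma tr (hyi : ContinuousOn Φ (Strip L) ∧ IsOpen (Φ '' Strip L) ∧
      AEMeasurable Φ (volume.restrict (Rec L (-π))) ∧
      Measure.map Φ (volume.restrict (Rec L (-π))) = μ.restrict (Φ '' Strip L))
    {g : M → ℝ} (hg : AEStronglyMeasurable g μ) :
    ∫ x in Φ '' Strip L, g x ∂μ = ∫ z in Rec L (-π), g (Φ z) := by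
  obtain ⟨-, -, h3, h4⟩ := hyi
  rw [← h4]
  refine integral_map h3 ?_
  rw [h4]
  exact hg.restrict

lemma tr0 (hyi : ContinuousOn Φ (Strip L) ∧ IsOpen (Φ '' Strip L) ∧
      AEMeasurable Φ (volume.restrict (Rec L (-π))) ∧
      Measure.map Φ (volume.restrict (Rec L (-π))) = μ.restrict (Φ '' Strip L))
    {g : M → ℝ} (hg : AEStronglyMeasurable g μ) (h0 : ∀ x, x ∉ Φ '' Strip L → g x = 0) :
    ∫ x, g x ∂μ = ∫ z in Rec L (-π), g (Φ z) := by
  rw [← tr hyi hg]
  exact (setIntegral_eq_integral_of_forall_compl_eq_zero h0).symm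

lemma tr_ae (hyi : ContinuousOn Φ (Strip L) ∧ IsOpen (Φ '' Strip L) ∧
      AEMeasurable Φ (volume.restrict (Rec L (-π))) ∧
      Measure.map Φ (volume.restrict (Rec L (-π))) = μ.restrict (Φ '' Strip L))
    {p : M → Prop} (hp : ∀ᵐ x ∂μ, p x) : ∀ᵐ z ∂volume.restrict (Rec L (-π)), p (Φ z) := by
  obtain ⟨-, -, h3, h4⟩ := hyi
  refine ae_of_ae_map h3 ?_
  rw [h4]
  exact ae_restrict_of_ae hp

lemma u_mem (hyi : ContinuousOn Φ (Strip L) ∧ IsOpen (Φ '' Strip L) ∧
      AEMeasurable Φ (volume.restrict (Rec L (-π))) ∧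
      Measure.map Φ (volume.restrict (Rec L (-π))) = μ.restrict (Φ '' Strip L))
    (v : Lp ℝ 2 μ) : MemLp (fun z => v (Φ z)) 2 (volume.restrict (Rec L (-π))) := by
  obtain ⟨-, -, h3, h4⟩ := hyi
  have h5 : MemLp (v : M → ℝ) 2 (Measure.map Φ (volume.restrict (Rec L (-π)))) := by
    rw [h4]
    exact (Lp.memLp v).restrict _
  exact (memLp_map_measure_iff h5.1 h3).1 h5

lemma u_odd (hyi : ContinuousOn Φ (Strip L) ∧ IsOpen (Φ '' Strip L) ∧
      AEMeasurable Φ (volume.restrict (Rec L (-π))) ∧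
      Measure.map Φ (volume.restrict (Rec L (-π))) = μ.restrict (Φ '' Strip L))
    (hC : D.IsCyl μ L Φ σ) {v : M → ℝ} (hv : ∀ᵐ x ∂μ, v (σ x) = - v x) :
    ∀ᵐ z ∂volume.restrict (Rec L (-π)), v (Φ (conj z)) = - v (Φ z) := by
  filter_upwards [tr_ae hyi hv, ae_restrict_mem (rec_meas L)] with z hz hr
  rw [← hC.refl z (rec_sub L hr)]
  exact hz

end transfer

/-! ### test functions -/

lemma tst_cont {L : ℝ} {η : ℝ → ℝ} (h : Tst L η) : Continuous η := h.1.continuous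

lemma tst_bdd {L : ℝ} {η : ℝ → ℝ} (h : Tst L η) : ∃ C, ∀ x, |η x| ≤ C := by
  obtain ⟨C, hC⟩ := h.2.1.exists_bound_of_continuous h.1.continuous
  exact ⟨C, fun x => by simpa using hC x⟩

lemma tst_der {L : ℝ} {η : ℝ → ℝ} (h : Tst L η) : Tst L (deriv η) := by
  refine ⟨(contDiff_infty_iff_deriv.1 h.1).2, h.2.1.deriv, ?_⟩
  refine (closure_minimal ?_ (isClosed_tsupport η)).trans h.2.2
  exact support_deriv_subset

lemma tst_lin {L : ℝ} {η ζ : ℝ → ℝ} (h : Tst L η) (h' : Tst L ζ) (α β : ℝ) :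
    Tst L (fun x => α * η x + β * ζ x) := by
  have hs : Function.support (fun x => α * η x + β * ζ x) ⊆ tsupport η ∪ tsupport ζ := by
    intro x hx
    by_contra hcon
    simp only [mem_union, not_or] at hcon
    have e1 : η x = 0 := image_eq_zero_of_notMem_tsupport hcon.1
    have e2 : ζ x = 0 := image_eq_zero_of_notMem_tsupport hcon.2
    exact hx (by simp [e1, e2])
  have ht : tsupport (fun x => α * η x + β * ζ x) ⊆ tsupport η ∪ tsupport ζ :=
    closure_minimal hs ((isClosed_tsupport η).union (isClosed_tsupport ζ))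
  refine ⟨(contDiff_const.mul h.1).add (contDiff_const.mul h'.1), ?_,
    ht.trans (union_subset h.2.2 h'.2.2)⟩
  exact IsCompact.of_isClosed_subset (h.2.1.isCompact.union h'.2.1.isCompact)
    (isClosed_tsupport _) ht

lemma tst_op {L : ℝ} {η : ℝ → ℝ} (h : Tst L η) (m : ℕ) :
    Tst L (fun x => -(iteratedDeriv 2 η x) + (m + 1) ^ 2 * η x) := by
  have e : (fun x => -(iteratedDeriv 2 η x) + (m + 1) ^ 2 * η x) =
      fun x => (-1) * deriv (deriv η) x + ((m : ℝ) + 1) ^ 2 * η x := by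
    funext x
    rw [iteratedDeriv_succ, iteratedDeriv_one]
    ring
  rw [e]
  exact tst_lin (tst_der (tst_der h)) h _ _

/-! ### the elements which belong to functions on the cylinder -/

section elements

variable {M : Type} [MetricSpace M] [CompactSpace M] [MeasurableSpace M] [BorelSpace M]
  {μ : Measure M} {D : Data M} {L : ℝ} {Φ : ℂ → M} {σ : M → M}

/-- `e` is the element of the frequency `m + 1` which belongs to the test function `η` -/
structure El (D : Data M) (μ : Measure M) (L : ℝ) (Φ : ℂ → M) (σ : M → M) (η : ℝ → ℝ) (m : ℕ)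
    (e : HS D μ σ) (V : M → ℝ) : Prop where
  c1 : D.C1 V
  val : ∀ z ∈ Strip L, V (Φ z) = Vf η m z
  off : ∀ x, x ∉ Φ '' Strip L → V x = 0
  fst : (e.1.fst : M → ℝ) =ᵐ[μ] fun x => (√π)⁻¹ * V x
  snd : (e.1.snd : M → ℂ) =ᵐ[μ] fun x => (√π)⁻¹ • D.gr V x

lemma ex_el (hD : D.IsSurf μ) (hC : D.IsCyl μ L Φ σ) (hCyf : StCyf) (hDen : StDen)
    {η : ℝ → ℝ} (hη : Tst L η) (m : ℕ) : ∃ e V, El D μ L Φ σ η m e V := by
  obtain ⟨V, h1, h2, h3, h4⟩ := (hCyf M μ D hD L Φ σ hC η hη).2 m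
  obtain ⟨v, hv, hf, hs⟩ := (hDen M μ D hD L Φ σ hC).1 V h1 h4
  refine ⟨(√π)⁻¹ • ⟨v, hv⟩, V, h1, h2, h3, ?_, ?_⟩
  · have e : ((√π)⁻¹ • (⟨v, hv⟩ : HS D μ σ)).1.fst = (√π)⁻¹ • v.fst := rfl
    rw [e]
    filter_upwards [Lp.coeFn_smul (√π)⁻¹ v.fst, hf] with x hx hx'
    rw [hx, Pi.smul_apply, hx', smul_eq_mul]
  · have e : ((√π)⁻¹ • (⟨v, hv⟩ : HS D μ σ)).1.snd = (√π)⁻¹ • v.snd := rfl
    rw [e]
    filter_upwards [Lp.coeFn_smul (√π)⁻¹ v.snd, hs] with x hx hx'
    rw [hx, Pi.smul_apply, hx']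

lemma el_inner (hyi : ContinuousOn Φ (Strip L) ∧ IsOpen (Φ '' Strip L) ∧
      AEMeasurable Φ (volume.restrict (Rec L (-π))) ∧
      Measure.map Φ (volume.restrict (Rec L (-π))) = μ.restrict (Φ '' Strip L))
    (hgr : ∀ F, D.C1 F → Continuous F)
    {η : ℝ → ℝ} {m : ℕ} {e : HS D μ σ} {V : M → ℝ} (he : El D μ L Φ σ η m e V)
    (v : Lp ℝ 2 μ) {f : M → ℝ} (hf : AEStronglyMeasurable f μ) (hv : (v : M → ℝ) =ᵐ[μ] f) :
    inner ℝ (ii D μ σ e) v =
      (√π)⁻¹ * ∫ z in Rec L (-π), η z.re * Real.sin ((m + 1) * z.im) * f (Φ z) := by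
  rw [inn]
  have h1 : ∫ x, (ii D μ σ e) x * v x ∂μ = ∫ x, (√π)⁻¹ * V x * f x ∂μ := by
    refine integral_congr_ae ?_
    filter_upwards [he.fst, hv] with x hx hx'
    rw [ii_apply, hx, hx']
  rw [h1]
  have hm : AEStronglyMeasurable (fun x => (√π)⁻¹ * V x * f x) μ :=
    ((hgr V he.c1).aestronglyMeasurable.const_mul _).mul hf
  rw [tr0 hyi hm (fun x hx => by rw [he.off x hx]; simp), ← integral_const_mul]
  refine setIntegral_congr_fun (rec_meas L) fun z hz => ?_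
  rw [he.val z (rec_sub L hz), Vf]
  ring

lemma el_pf (hyi : ContinuousOn Φ (Strip L) ∧ IsOpen (Φ '' Strip L) ∧
      AEMeasurable Φ (volume.restrict (Rec L (-π))) ∧
      Measure.map Φ (volume.restrict (Rec L (-π))) = μ.restrict (Φ '' Strip L))
    (hgr : ∀ F, D.C1 F → Continuous F) {η : ℝ → ℝ} {m : ℕ} {e : HS D μ σ} {V : M → ℝ}
    (he : El D μ L Φ σ η m e V) (v : Lp ℝ 2 μ) {q : ℝ}
    (hq : ∫ z in Rec L (-π), η z.re * Real.sin ((m + 1) * z.im) * v (Φ z) = √π * q) :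
    inner ℝ (ii D μ σ e) v = q := by
  rw [el_inner hyi hgr he v (Lp.aestronglyMeasurable v) (Filter.EventuallyEq.refl _ _), hq]
  have hp : √π ≠ 0 := (Real.sqrt_pos.2 Real.pi_pos).ne'
  field_simp

/-- the Dirichlet form with an element -/
lemma el_a (hD : D.IsSurf μ) (hC : D.IsCyl μ L Φ σ) (hDen : StDen) (hCyd : StCyd)
    (hyi : ContinuousOn Φ (Strip L) ∧ IsOpen (Φ '' Strip L) ∧
      AEMeasurable Φ (volume.restrict (Rec L (-π))) ∧
      Measure.map Φ (volume.restrict (Rec L (-π))) = μ.restrict (Φ '' Strip L))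
    (hgr : ∀ F, D.C1 F → Continuous F) {η : ℝ → ℝ} (hη : Tst L η) {m : ℕ} {e e' : HS D μ σ}
    {V V' : M → ℝ} (he : El D μ L Φ σ η m e V)
    (he' : El D μ L Φ σ (fun x => -(iteratedDeriv 2 η x) + (m + 1) ^ 2 * η x) m e' V')
    (v : HS D μ σ) : aa D μ σ e v = inner ℝ (ii D μ σ e') (ii D μ σ v) := by
  refine dens hDen hD hC (P := fun v => aa D μ σ e v = inner ℝ (ii D μ σ e') (ii D μ σ v)) ?_ ?_ v
  · exact isClosed_eq (aa D μ σ e).continuous
      (continuous_const.inner (ii D μ σ).continuous)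
  · intro v F hF _ hf hs
    rw [el_inner hyi hgr he' (ii D μ σ v) (hgr F hF).aestronglyMeasurable hf, aa_apply, innC]
    have h1 : ∫ x, inner ℝ (e.1.snd x) (v.1.snd x) ∂μ =
        ∫ x, (√π)⁻¹ * inner ℝ (D.gr V x) (D.gr F x) ∂μ := by
      refine integral_congr_ae ?_
      filter_upwards [he.snd, hs] with x hx hx'
      rw [hx, hx', real_inner_smul_left]
    rw [h1, integral_const_mul, hCyd M μ D hD L Φ σ hC η hη m V he.c1 he.val he.off F hF]

end elements

theorem pack : StGr → StFin → StInt → StW → StPar2 → StCyi → StCyf → StCyd → StDen → StPack := by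
  intro hGr hFin _ hW hPar hCyi hCyf hCyd hDen M _ _ _ _ μ D hD L Φ σ hC h hh hh0
  have hfin : IsFiniteMeasure μ := (hFin M μ D hD).1
  have hyi := hCyi M μ D hD L Φ σ hC
  obtain ⟨hG1, hG2, hG3⟩ := hGr M μ D hD
  have hgr : ∀ F, D.C1 F → Continuous F := fun F hF => (hG1 F hF).1
  have hpi : 0 < √π := Real.sqrt_pos.2 Real.pi_pos
  have hmem : ∀ v : HS D μ σ, MemLp (fun z => (ii D μ σ v) (Φ z)) 2
      (volume.restrict (Rec L (-π))) := fun v => u_mem hyi _
  have hodd : ∀ v : HS D μ σ, ∀ᵐ z ∂volume.restrict (Rec L (-π)),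
      (ii D μ σ v) (Φ (conj z)) = - (ii D μ σ v) (Φ z) := fun v =>
    u_odd hyi hC ((hDen M μ D hD L Φ σ hC).2 v.1 v.2).1
  have hP := fun v : HS D μ σ => hPar L (fun z => (ii D μ σ v) (Φ z)) hC.pos (hmem v) (hodd v)
  refine ⟨ii D μ σ, aa D μ σ, fun v m => cf (fun z => (ii D μ σ v) (Φ z)) m, ?_, fun v => rfl,
    fun u v => rfl⟩
  refine ⟨fun u v => ?_, fun v => ?_, fun v => nrm D μ σ v, ?_, fun v m => (hP v).1 m,
    fun v => ?_, fun η hη => ?_, fun η hη => ?_⟩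
  · rw [aa_apply, aa_apply, real_inner_comm]
  · rw [aa_apply]
    exact real_inner_self_nonneg
  · obtain ⟨C, hCW⟩ := hW M μ D hD
    refine ⟨C, fun ε h0 h1 => ?_⟩
    obtain ⟨N, κ, hN, hκ, hineq⟩ := hCW ε h0 h1
    refine ⟨N, fun j => (innerSL ℝ ((hκ j).toLp (κ j))).comp (ii D μ σ), hN, ?_⟩
    refine dens hDen hD hC (P := fun v => ‖ii D μ σ v‖ ^ 2 ≤ ε * aa D μ σ v v +
      ∑ j, ((innerSL ℝ ((hκ j).toLp (κ j))).comp (ii D μ σ) v) ^ 2) ?_ ?_
    · refine isClosed_le (by fun_prop) ?_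
      refine Continuous.add ?_ ?_
      · refine continuous_const.mul ?_
        simp only [aa_apply]
        exact (WithLp.sndL 2 ℝ (Lp ℝ 2 μ) (Lp ℂ 2 μ)).continuous.comp continuous_subtype_val
          |>.inner ((WithLp.sndL 2 ℝ (Lp ℝ 2 μ) (Lp ℂ 2 μ)).continuous.comp
            continuous_subtype_val)
      · fun_prop
    · intro v F hF _ hf hs
      have e1 : ‖ii D μ σ v‖ ^ 2 = ∫ x, (F x) ^ 2 ∂μ := by
        rw [nsq]
        refine integral_congr_ae ?_
        filter_upwards [hf] with x hx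
        rw [ii_apply, hx]
      have e2 : aa D μ σ v v = ∫ x, ‖D.gr F x‖ ^ 2 ∂μ := by
        rw [aa_apply, innC]
        refine integral_congr_ae ?_
        filter_upwards [hs] with x hx
        rw [hx, real_inner_self_eq_norm_sq]
      have e3 : ∀ j, ((innerSL ℝ ((hκ j).toLp (κ j))).comp (ii D μ σ) v) =
          ∫ x, F x * κ j x ∂μ := by
        intro j
        rw [ContinuousLinearMap.comp_apply, innerSL_apply_apply, inn]
        refine integral_congr_ae ?_
        filter_upwards [hf, (hκ j).coeFn_toLp] with x hx hx'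
        rw [ii_apply, hx, hx', mul_comm]
      simp only [e1, e2, e3]
      exact hineq F hF
  · obtain ⟨-, h2⟩ := (hP v).2 (fun _ => 1) measurable_const ⟨1, fun x => by simp⟩
    simp only [one_mul] at h2
    refine ⟨h2.summable, ?_⟩
    rw [h2.tsum_eq, nsq]
    have h3 : ∫ z in Rec L (-π), (ii D μ σ v) (Φ z) ^ 2 =
        ∫ x in Φ '' Strip L, (ii D μ σ v) x ^ 2 ∂μ :=
      (tr hyi ((Lp.aestronglyMeasurable (ii D μ σ v)).pow 2)).symm
    rw [h3]
    refine setIntegral_le_integral ?_ (Eventually.of_forall fun x => sq_nonneg _)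
    exact (Lp.memLp (ii D μ σ v)).integrable_sq
  · obtain ⟨f, hf, hfv, hf0⟩ := (hCyf M μ D hD L Φ σ hC η hη).1
    refine ⟨f, hf, fun x hx => ?_, ?_, fun v => ?_⟩
    · by_contra hcon
      refine hx (hf0 x ?_)
      rintro ⟨z, hz, rfl⟩
      exact hcon (hh0 z hz)
    · rw [tr0 hyi hf.aestronglyMeasurable hf0]
      have h1 : ∫ z in Rec L (-π), f (Φ z) = ∫ z in Rec L (-π), η z.re * (1 : ℝ) :=
        setIntegral_congr_fun (rec_meas L) fun z hz => by
          rw [hfv z (rec_sub L hz), mul_one]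
      have h2 := rec_mul L η (fun _ => (1 : ℝ))
      rw [h1, h2, int_one]
      ring
    · obtain ⟨-, h2⟩ := (hP v).2 η (tst_cont hη).measurable (tst_bdd hη)
      have h3 : ∫ x, f x * (ii D μ σ v x) ^ 2 ∂μ =
          ∫ z in Rec L (-π), η z.re * (ii D μ σ v (Φ z)) ^ 2 := by
        have hm : AEStronglyMeasurable (fun x => f x * (ii D μ σ v x) ^ 2) μ :=
          hf.aestronglyMeasurable.mul ((Lp.aestronglyMeasurable (ii D μ σ v)).pow 2)
        rw [tr0 hyi hm (fun x hx => by rw [hf0 x hx, zero_mul])]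
        refine setIntegral_congr_fun (rec_meas L) fun z hz => ?_
        rw [hfv z (rec_sub L hz)]
      rw [h3]
      exact h2
  · choose e V he using fun m => ex_el hD hC hCyf hDen hη m
    choose e' V' he' using fun m => ex_el hD hC hCyf hDen (tst_op hη m) m
    refine ⟨e, fun m m' => ?_, fun m => ?_, fun m v => ⟨?_, ?_⟩⟩
    · have h1 := el_inner hyi hgr (he m) (ii D μ σ (e m'))
        ((hgr _ (he m').c1).aestronglyMeasurable.const_mul (√π)⁻¹) (he m').fst
      rw [h1]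
      have h2 : ∫ z in Rec L (-π), η z.re * Real.sin ((m + 1) * z.im) *
          ((√π)⁻¹ * V m' (Φ z)) = ∫ z in Rec L (-π), ((√π)⁻¹ * η z.re ^ 2) *
          (Real.sin ((m + 1) * z.im) * Real.sin ((m' + 1) * z.im)) := by
        refine setIntegral_congr_fun (rec_meas L) fun z hz => ?_
        rw [(he m').val z (rec_sub L hz), Vf]
        ring
      rw [h2, rec_mul L (fun x => (√π)⁻¹ * η x ^ 2)
        (fun y => Real.sin ((m + 1) * y) * Real.sin ((m' + 1) * y)), int_sin,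
        integral_const_mul]
      by_cases hm : m = m'
      · rw [if_pos hm, if_pos hm]
        have h3 : (√π)⁻¹ * (√π)⁻¹ = π⁻¹ := by
          rw [← mul_inv, Real.mul_self_sqrt Real.pi_pos.le]
        have h4 : π⁻¹ * π = 1 := inv_mul_cancel₀ Real.pi_pos.ne'
        calc (√π)⁻¹ * ((√π)⁻¹ * (∫ x in Ioo 0 L, η x ^ 2) * π) =
            ((√π)⁻¹ * (√π)⁻¹) * π * ∫ x in Ioo 0 L, η x ^ 2 := by ring
          _ = ∫ x in Ioo 0 L, η x ^ 2 := by rw [h3, h4, one_mul]
      · rw [if_neg hm, if_neg hm]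
        ring
    · filter_upwards [(he m).fst] with x hx hx0
      rw [ii_apply, hx] at hx0
      by_contra hcon
      refine hx0 ?_
      rw [(he m).off x ?_, mul_zero]
      rintro ⟨z, hz, rfl⟩
      exact hcon (hh0 z hz)
    · exact el_pf hyi hgr (he m) _ (((hP v).2 η (tst_cont hη).measurable (tst_bdd hη)).1 m)
    · rw [el_a hD hC hDen hCyd hyi hgr hη (he m) (he' m) v]
      exact el_pf hyi hgr (he' m) _ (((hP v).2 _ (tst_cont (tst_op hη m)).measurable
        (tst_bdd (tst_op hη m))).1 m)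

end Pool.Agent.Y291.QE
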